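import Pool.Agent.R713.Concrete

/-!
# MP_54d771_al, Q2: an admissible basis which is an eigenbasis of neither commutator-like map
-/

set_option autoImplicit false

namespace Pool.Agent.Results.MP_54d771_al.MixedBasis

open Module Matrix Pool.Agent.R713

/-- A square matrix is tridiagonal with all diagonal entries zero: the entry `(i, j)` is zero
unless `|i - j| = 1`. -/
def ZeroDiagTridiag {K : Type*} [Field K] {n : ℕ} (M : Matrix (Fin n) (Fin n) K) : Prop :=
  ∀ i j : Fin n, ¬ ((i : ℕ) + 1 = (j : ℕ) ∨ (j : ℕ) + 1 = (i : ℕ)) → M i j = 0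

/-- A basis is admissible for `A, B` if the matrices of `A` and of `B` in it are both tridiagonal
with all diagonal entries zero. -/
def Admissible {K V : Type*} [Field K] [AddCommGroup V] [Module K V] {n : ℕ}
    (A B : Module.End K V) (v : Basis (Fin n) K V) : Prop :=
  ZeroDiagTridiag (LinearMap.toMatrix v v A) ∧ ZeroDiagTridiag (LinearMap.toMatrix v v B)

/-- For diagonal matrices: `x_{i-2} - x_{i+1} = γ (x_{i-1} - x_i)` for `2 ≤ i ≤ d - 1`, where the
`x_i` are the diagonal entries. -/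
def Ratio {K : Type*} [Field K] {d : ℕ} (M : Matrix (Fin (d + 1)) (Fin (d + 1)) K) (γ : K) : Prop :=
  ∀ i0 i1 i2 i3 : Fin (d + 1), (i1 : ℕ) = i0 + 1 → (i2 : ℕ) = i0 + 2 → (i3 : ℕ) = i0 + 3 →
    M i0 i0 - M i3 i3 = γ * (M i1 i1 - M i2 i2)

/-- `A, B` is a Leonard pair of diameter `d` with `a_i = 0` and `a^*_i = 0` for all `i`, and the
ratios `(θ_{i-2} - θ_{i+1}) / (θ_{i-1} - θ_i)` and `(θ^*_{i-2} - θ^*_{i+1}) / (θ^*_{i-1} - θ^*_i)`
are all equal to `γ`. The basis `b` consists of eigenvectors of `A`, the basis `c` of eigenvectors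
of `B`; the `a_i` are the diagonal entries of the matrix of `A` in the basis `c`, the `a^*_i` are
the diagonal entries of the matrix of `B` in the basis `b`. -/
def BipartiteLeonardPair {K V : Type*} [Field K] [AddCommGroup V] [Module K V]
    (d : ℕ) (A B : Module.End K V) (γ : K) : Prop :=
  ∃ b c : Basis (Fin (d + 1)) K V,
    (LinearMap.toMatrix b b A).IsDiag ∧ IrrTridiag (LinearMap.toMatrix b b B) ∧
    (∀ i, LinearMap.toMatrix b b B i i = 0) ∧ Ratio (LinearMap.toMatrix b b A) γ ∧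
    (LinearMap.toMatrix c c B).IsDiag ∧ IrrTridiag (LinearMap.toMatrix c c A) ∧
    (∀ i, LinearMap.toMatrix c c A i i = 0) ∧ Ratio (LinearMap.toMatrix c c B) γ

open Complex (I)

/-- the matrix of `A` -/
noncomputable def MA : Matrix (Fin 4) (Fin 4) ℂ :=
  !![0, 84, 0, 0; 4, 0, 10 * I, 0; 0, -10 * I, 0, 1; 0, 0, 21, 0]

/-- the matrix of `A^*` -/
noncomputable def MB : Matrix (Fin 4) (Fin 4) ℂ :=
  !![0, -21 * I, 0, 0; I, 0, 10, 0; 0, 10, 0, -4 * I; 0, 0, 84 * I, 0]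

/-- the eigenvalues -/
noncomputable def D : Matrix (Fin 4) (Fin 4) ℂ :=
  !![21, 0, 0, 0; 0, 4, 0, 0; 0, 0, -4, 0; 0, 0, 0, -21]

/-- eigenvectors of `A` -/
noncomputable def PA : Matrix (Fin 4) (Fin 4) ℂ :=
  !![8 * I, -21 * I, 21 * I, -8 * I; 2 * I, -I, -I, 2 * I; 1, 8, -8, -1; 1, 42, 42, 1]

/-- the inverse of `PA` -/
noncomputable def QA : Matrix (Fin 4) (Fin 4) ℂ :=
  !![-4/85 * I, -21/85 * I, 21/170, 1/170; 1/170 * I, 1/170 * I, 4/85, 1/85;
    -1/170 * I, 1/170 * I, -4/85, 1/85; 4/85 * I, -21/85 * I, -21/170, 1/170]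

/-- `A^*` in the eigenbasis of `A` -/
noncomputable def NB : Matrix (Fin 4) (Fin 4) ℂ :=
  !![0, -42 * I, 0, 0; 2 * I, 0, -17 * I, 0; 0, 17 * I, 0, -2 * I; 0, 0, 42 * I, 0]

/-- eigenvectors of `A^*` -/
noncomputable def PB : Matrix (Fin 4) (Fin 4) ℂ :=
  !![-1, 42, -42, 1; -I, 8 * I, 8 * I, -I; -2 * I, -I, I, 2 * I; 8, 21, 21, 8]

/-- the inverse of `PB` -/
noncomputable def QB : Matrix (Fin 4) (Fin 4) ℂ :=
  !![-1/170, 21/170 * I, 21/85 * I, 4/85; 1/85, -4/85 * I, 1/170 * I, 1/170;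
    -1/85, -4/85 * I, -1/170 * I, 1/170; 1/170, 21/170 * I, -21/85 * I, 4/85]

/-- `A` in the eigenbasis of `A^*` -/
noncomputable def NA : Matrix (Fin 4) (Fin 4) ℂ :=
  !![0, 42 * I, 0, 0; -2 * I, 0, 17 * I, 0; 0, -17 * I, 0, 2 * I; 0, 0, -42 * I, 0]

theorem PQA : PA * QA = 1 := by
  ext i j
  fin_cases i <;> fin_cases j <;>
    simp [PA, QA, Matrix.mul_apply, Fin.sum_univ_four, Complex.ext_iff] <;> norm_num

theorem PQB : PB * QB = 1 := by
  ext i j
  fin_cases i <;> fin_cases j <;>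
    simp [PB, QB, Matrix.mul_apply, Fin.sum_univ_four, Complex.ext_iff] <;> norm_num

theorem eA : MA * PA = PA * D := by
  ext i j
  fin_cases i <;> fin_cases j <;>
    simp [PA, MA, D, Matrix.mul_apply, Fin.sum_univ_four, Complex.ext_iff] <;> norm_num

theorem eB : MB * PB = PB * D := by
  ext i j
  fin_cases i <;> fin_cases j <;>
    simp [PB, MB, D, Matrix.mul_apply, Fin.sum_univ_four, Complex.ext_iff] <;> norm_num

theorem fA : MA * PB = PB * NA := by
  ext i j
  fin_cases i <;> fin_cases j <;>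
    simp [PB, MA, NA, Matrix.mul_apply, Fin.sum_univ_four, Complex.ext_iff] <;> norm_num

theorem fB : MB * PA = PA * NB := by
  ext i j
  fin_cases i <;> fin_cases j <;>
    simp [PA, MB, NB, Matrix.mul_apply, Fin.sum_univ_four, Complex.ext_iff] <;> norm_num

theorem conj {P Q M N : Matrix (Fin 4) (Fin 4) ℂ} (h : P * Q = 1) (e : M * P = P * N) :
    Q * M * P = N := by
  rw [mul_assoc, e, ← mul_assoc, mul_eq_one_comm.1 h, one_mul]

theorem D_diag : D.IsDiag := by
  intro i j hij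
  fin_cases i <;> fin_cases j <;> simp [D] at hij ⊢

theorem D_ratio : Ratio D (2 ^ 2 + (2⁻¹) ^ 2 + 1) := by
  intro i0 i1 i2 i3 h1 h2 h3
  have e0 : i0 = 0 := Fin.ext (by show (i0 : ℕ) = 0; omega)
  have e1 : i1 = 1 := Fin.ext (by show (i1 : ℕ) = 1; omega)
  have e2 : i2 = 2 := Fin.ext (by show (i2 : ℕ) = 2; omega)
  have e3 : i3 = 3 := Fin.ext (by show (i3 : ℕ) = 3; omega)
  subst e0 e1 e2 e3
  simp [D]
  norm_num

theorem NB_irr : IrrTridiag NB := by
  intro i j
  fin_cases i <;> fin_cases j <;> simp [NB]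

theorem NA_irr : IrrTridiag NA := by
  intro i j
  fin_cases i <;> fin_cases j <;> simp [NA]

theorem NB_diag (i : Fin 4) : NB i i = 0 := by
  fin_cases i <;> simp [NB]

theorem NA_diag (i : Fin 4) : NA i i = 0 := by
  fin_cases i <;> simp [NA]

theorem toM (M : Matrix (Fin 4) (Fin 4) ℂ) :
    LinearMap.toMatrix (Pi.basisFun ℂ (Fin 4)) (Pi.basisFun ℂ (Fin 4)) (Matrix.toLin' M) = M := by
  rw [← Matrix.toLin_eq_toLin', LinearMap.toMatrix_toLin]

/-- There are a Leonard pair `A, A^*` of diameter `3` on `ℂ⁴` with `a_i = 0` and `a^*_i = 0` for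
all `i`, a nonzero scalar `q` (namely `q = 2`) such that `q² + q⁻² + 1` is the common value of the
ratios, and an admissible basis `v` such that neither the matrix of `q A A^* - q⁻¹ A^* A` in `v`
nor the matrix of `q⁻¹ A A^* - q A^* A` in `v` is diagonal. -/
theorem result : ∃ (A B : Module.End ℂ (Fin 4 → ℂ)) (q : ℂ) (v : Basis (Fin 4) ℂ (Fin 4 → ℂ)),
    q ≠ 0 ∧ BipartiteLeonardPair 3 A B (q ^ 2 + q⁻¹ ^ 2 + 1) ∧ Admissible A B v ∧
    ¬ (LinearMap.toMatrix v v (q • (A * B) - q⁻¹ • (B * A))).IsDiag ∧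
    ¬ (LinearMap.toMatrix v v (q⁻¹ • (A * B) - q • (B * A))).IsDiag := by
  refine ⟨Matrix.toLin' MA, Matrix.toLin' MB, 2, Pi.basisFun ℂ (Fin 4), two_ne_zero,
    ⟨colBasis PA QA PQA, colBasis PB QB PQB, ?_⟩, ⟨?_, ?_⟩, ?_, ?_⟩
  · rw [toMatrix_colBasis, toMatrix_colBasis, toMatrix_colBasis, toMatrix_colBasis,
      conj PQA eA, conj PQA fB, conj PQB eB, conj PQB fA]
    exact ⟨D_diag, NB_irr, NB_diag, D_ratio, D_diag, NA_irr, NA_diag, D_ratio⟩
  · rw [toM]
    intro i j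
    fin_cases i <;> fin_cases j <;> simp [MA]
  · rw [toM]
    intro i j
    fin_cases i <;> fin_cases j <;> simp [MB]
  · intro h
    rw [Module.End.mul_eq_comp, Module.End.mul_eq_comp, ← Matrix.toLin'_mul, ← Matrix.toLin'_mul,
      ← map_smul, ← map_smul, ← map_sub, toM] at h
    have := h (show (0 : Fin 4) ≠ 2 by decide)
    simp [MA, MB, Complex.ext_iff] at this
    norm_num at this
  · intro h
    rw [Module.End.mul_eq_comp, Module.End.mul_eq_comp, ← Matrix.toLin'_mul, ← Matrix.toLin'_mul,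
      ← map_smul, ← map_smul, ← map_sub, toM] at h
    have := h (show (2 : Fin 4) ≠ 0 by decide)
    simp [MA, MB, Complex.ext_iff] at this
    norm_num at this

end Pool.Agent.Results.MP_54d771_al.MixedBasis
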